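import Mathlib

set_option autoImplicit false

namespace Pool.Agent.Lib.MP_e6c168_lc

/-- A fast contract-signing protocol for `N` parties: `holder n d` is the party holding contract
`n` on day `d`; contract `n` visits every party exactly once and is with party `n` on the last day
`N - 1`. -/
structure FastProtocol (N : ℕ) where
  holder : Fin N → Equiv.Perm (Fin N)
  last_day : ∀ n d : Fin N, (d : ℕ) = N - 1 → holder n d = n

open Classical in
/-- The amount paid by party `i`: the number of pairs `(d, j)` such that some contract is with `i`
on day `d` and with `j` on day `d + 1`. -/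
noncomputable def cost {N : ℕ} (P : FastProtocol N) (i : Fin N) : ℕ :=
  (Finset.univ.filter fun x : Fin N × Fin N =>
    ∃ (n : Fin N) (h : (x.1 : ℕ) + 1 < N),
      P.holder n x.1 = i ∧ P.holder n ⟨(x.1 : ℕ) + 1, h⟩ = x.2).card

end Pool.Agent.Lib.MP_e6c168_lc
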