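import Pool.Agent.Lib.MP_e6c168_lc.Defs

set_option autoImplicit false

namespace Pool.Agent.Lib.MP_e6c168_lc

/-! ### Ancestors in a binary heap -/

section Path

/-- `v` is an ancestor of `x` (or `x` itself) in the binary heap `1, 2, 3, …`. -/
def OnPath (x v : ℕ) : Prop := 0 < v ∧ ∃ i, x / 2 ^ i = v

theorem onPath_self {x : ℕ} (hx : 0 < x) : OnPath x x := ⟨hx, 0, by simp⟩

theorem onPath_le {x v : ℕ} (h : OnPath x v) : v ≤ x := by
  obtain ⟨_, i, rfl⟩ := h
  exact Nat.div_le_self _ _

theorem onPath_step {x v : ℕ} (hx : 0 < x) : OnPath x v ↔ v = x ∨ OnPath (x / 2) v := by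
  constructor
  · rintro ⟨hv, i, hi⟩
    cases i with
    | zero => left; simpa using hi.symm
    | succ i =>
      right
      refine ⟨hv, i, ?_⟩
      rw [← hi, pow_succ', Nat.div_div_eq_div_mul]
  · rintro (rfl | ⟨hv, i, hi⟩)
    · exact onPath_self hx
    · exact ⟨hv, i + 1, by rw [← hi, pow_succ', Nat.div_div_eq_div_mul]⟩

theorem onPath_zero {v : ℕ} : ¬ OnPath 0 v := by
  rintro ⟨hv, i, hi⟩
  simp at hi
  omega

theorem onPath_one {x : ℕ} (hx : 0 < x) : OnPath x 1 := by
  induction x using Nat.strong_induction_on with
  | _ x ih =>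
    rw [onPath_step hx]
    by_cases h : x = 1
    · left; exact h.symm
    · right; exact ih (x / 2) (by omega) (by omega)

/-- Two different elements of a path differ by a factor of at least two. -/
theorem onPath_double {x p q : ℕ} (hp : OnPath x p) (hq : OnPath x q) (hpq : p < q) :
    2 * p ≤ q := by
  induction x using Nat.strong_induction_on with
  | _ x ih =>
    have hx : 0 < x := lt_of_lt_of_le hp.1 (onPath_le hp)
    rw [onPath_step hx] at hp hq
    rcases hp with hp | hp
    · rcases hq with hq | hq
      · omega
      · have := onPath_le hq; omega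
    · rcases hq with hq | hq
      · have := onPath_le hp; omega
      · exact ih (x / 2) (by omega) hp hq

open Classical in
/-- Number of path elements below `v`. -/
noncomputable def cnt (x v : ℕ) : ℕ := ((Finset.range v).filter fun u => OnPath x u).card

theorem cnt_zero (v : ℕ) : cnt 0 v = 0 := by
  classical
  unfold cnt
  rw [Finset.card_eq_zero, Finset.filter_eq_empty_iff]
  intro u _
  exact onPath_zero

theorem cnt_step_lt {x v : ℕ} (hx : 0 < x) (hv : x < v) : cnt x v = cnt (x / 2) v + 1 := by
  classical
  unfold cnt
  have : (Finset.range v).filter (fun u => OnPath x u) =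
      insert x ((Finset.range v).filter fun u => OnPath (x / 2) u) := by
    ext u
    simp only [Finset.mem_filter, Finset.mem_range, Finset.mem_insert, onPath_step hx]
    constructor
    · rintro ⟨h1, h2 | h2⟩
      · left; exact h2
      · right; exact ⟨h1, h2⟩
    · rintro (h1 | ⟨h1, h2⟩)
      · exact ⟨by omega, Or.inl h1⟩
      · exact ⟨h1, Or.inr h2⟩
  rw [this, Finset.card_insert_of_notMem]
  simp only [Finset.mem_filter, not_and]
  intro _ h
  have := onPath_le h
  omega

theorem cnt_step_ge {x v : ℕ} (hx : 0 < x) (hv : v ≤ x) : cnt x v = cnt (x / 2) v := by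
  classical
  unfold cnt
  congr 1
  ext u
  simp only [Finset.mem_filter, Finset.mem_range, onPath_step hx]
  constructor
  · rintro ⟨h1, h2 | h2⟩
    · omega
    · exact ⟨h1, h2⟩
  · rintro ⟨h1, h2⟩
    exact ⟨h1, Or.inr h2⟩

theorem log_half {x : ℕ} (hx : 2 ≤ x) : Nat.log 2 x = Nat.log 2 (x / 2) + 1 := by
  rw [Nat.log_div_base]
  have : 0 < Nat.log 2 x := Nat.log_pos (by norm_num) hx
  omega

theorem cnt_all {x : ℕ} (hx : 0 < x) : ∀ v, x < v → cnt x v = Nat.log 2 x + 1 := by
  induction x using Nat.strong_induction_on with
  | _ x ih =>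
    intro v hv
    rw [cnt_step_lt hx hv]
    by_cases h : x = 1
    · subst h
      simp [cnt_zero]
    · rw [ih (x / 2) (by omega) (by omega) v (by omega), log_half (x := x) (by omega)]

theorem cnt_mem {x : ℕ} (hx : 0 < x) : ∀ v, 0 < v → v ≤ 2 * x + 1 →
    cnt x v = Nat.log 2 v ∨ cnt x v = Nat.log 2 v + 1 := by
  induction x using Nat.strong_induction_on with
  | _ x ih =>
    intro v hv hvx
    by_cases h : x < v
    · rw [cnt_all hx v h]
      have h1 : Nat.log 2 x ≤ Nat.log 2 v := Nat.log_mono_right h.le
      have h2 : Nat.log 2 v ≤ Nat.log 2 x + 1 := by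
        have h3 : Nat.log 2 v ≤ Nat.log 2 (2 * x + 1) := Nat.log_mono_right hvx
        have h4 : Nat.log 2 (2 * x + 1) = Nat.log 2 x + 1 := by
          rw [log_half (by omega)]
          congr 2
          omega
        omega
      omega
    · push Not at h
      rw [cnt_step_ge hx h]
      by_cases h1 : x = 1
      · subst h1
        have : v = 1 := by omega
        subst this
        left
        simp [cnt_zero]
      · exact ih (x / 2) (by omega) (by omega) v hv (by omega)

theorem cnt_onPath {x v : ℕ} (h : OnPath x v) : cnt x v = Nat.log 2 v := by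
  induction x using Nat.strong_induction_on with
  | _ x ih =>
    have hx : 0 < x := lt_of_lt_of_le h.1 (onPath_le h)
    have hv := h.1
    by_cases hvx : v = x
    · subst hvx
      rw [cnt_step_ge hx le_rfl]
      by_cases h1 : v = 1
      · subst h1; simp [cnt_zero]
      · rw [cnt_all (by omega) v (by omega), ← log_half (by omega)]
    · have h2 : OnPath (x / 2) v := by
        rw [onPath_step hx] at h
        rcases h with h | h
        · exact absurd h hvx
        · exact h
      rw [cnt_step_ge hx (by have := onPath_le h; omega)]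
      exact ih (x / 2) (by omega) h2

end Path

/-! ### Keys -/

section Key

open Classical in
/-- The sorting key: elements outside the path come first, in increasing order, then the path. -/
noncomputable def key (a x v : ℕ) : ℕ := if OnPath x v then 2 * a + v else v

theorem key_pos {a x v : ℕ} (h : OnPath x v) : key a x v = 2 * a + v := by simp [key, h]

theorem key_neg {a x v : ℕ} (h : ¬ OnPath x v) : key a x v = v := by simp [key, h]

theorem key_inj {a x u v : ℕ} (hu : u < 2 * a) (hv : v < 2 * a) (h : key a x u = key a x v) :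
    u = v := by
  by_cases h1 : OnPath x u <;> by_cases h2 : OnPath x v
  · rw [key_pos h1, key_pos h2] at h; omega
  · rw [key_pos h1, key_neg h2] at h; omega
  · rw [key_neg h1, key_pos h2] at h; omega
  · rw [key_neg h1, key_neg h2] at h; omega

open Classical in
/-- Number of elements with a smaller key. -/
noncomputable def rank (a x v : ℕ) : ℕ :=
  ((Finset.range (2 * a)).filter fun u => key a x u < key a x v).card

theorem rank_neg {a x v : ℕ} (hv : v < 2 * a) (h : ¬ OnPath x v) : rank a x v = v - cnt x v := by
  classical
  unfold rank cnt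
  have h1 : (Finset.range (2 * a)).filter (fun u => key a x u < key a x v) =
      (Finset.range v).filter fun u => ¬ OnPath x u := by
    ext u
    simp only [Finset.mem_filter, Finset.mem_range]
    rw [key_neg h]
    constructor
    · rintro ⟨h1, h2⟩
      by_cases h3 : OnPath x u
      · rw [key_pos h3] at h2; omega
      · rw [key_neg h3] at h2; exact ⟨h2, h3⟩
    · rintro ⟨h1, h2⟩
      rw [key_neg h2]
      exact ⟨by omega, h1⟩
  rw [h1]
  have := Finset.card_filter_add_card_filter_not (s := Finset.range v) (fun u => OnPath x u)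
  simp only [Finset.card_range] at this
  omega

theorem rank_pos {a x v : ℕ} (hx : 0 < x) (hxa : x < 2 * a) (h : OnPath x v) :
    rank a x v = 2 * a - (Nat.log 2 x + 1) + Nat.log 2 v := by
  classical
  have hv : v < 2 * a := lt_of_le_of_lt (onPath_le h) hxa
  have h1 : (Finset.range (2 * a)).filter (fun u => key a x u < key a x v) =
      ((Finset.range (2 * a)).filter fun u => ¬ OnPath x u) ∪
        ((Finset.range v).filter fun u => OnPath x u) := by
    ext u
    simp only [Finset.mem_filter, Finset.mem_range, Finset.mem_union]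
    rw [key_pos h]
    constructor
    · rintro ⟨h1, h2⟩
      by_cases h3 : OnPath x u
      · rw [key_pos h3] at h2; right; exact ⟨by omega, h3⟩
      · left; exact ⟨h1, h3⟩
    · rintro (⟨h1, h2⟩ | ⟨h1, h2⟩)
      · rw [key_neg h2]; exact ⟨h1, by omega⟩
      · rw [key_pos h2]; exact ⟨by omega, by omega⟩
  have h2 : Disjoint ((Finset.range (2 * a)).filter fun u => ¬ OnPath x u)
      ((Finset.range v).filter fun u => OnPath x u) := by
    rw [Finset.disjoint_left]
    intro u hu hu'
    exact (Finset.mem_filter.1 hu).2 (Finset.mem_filter.1 hu').2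
  unfold rank
  rw [h1, Finset.card_union_of_disjoint h2]
  have h3 := Finset.card_filter_add_card_filter_not (s := Finset.range (2 * a))
    (fun u => OnPath x u)
  simp only [Finset.card_range] at h3
  have h4 := cnt_all hx (2 * a) hxa
  have h5 := cnt_onPath h
  unfold cnt at h4 h5
  omega

/-- The candidate pairs (day, next party) for the node `v`. -/
def cand (a v : ℕ) : Finset (ℕ × ℕ) :=
  if v = 0 then {0} ×ˢ {1, 2, 3}
  else ({v - Nat.log 2 v, v - (Nat.log 2 v + 1)} ×ˢ {v + 1, if v + 2 < 2 * a then v + 2 else 1}) ∪
    (if v < a then {2 * a - (Nat.log 2 a + 1) + Nat.log 2 v,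
      2 * a - (Nat.log 2 a + 2) + Nat.log 2 v} ×ˢ {2 * v, 2 * v + 1} else ∅)

theorem card_pair_le (p q : ℕ) : ({p, q} : Finset ℕ).card ≤ 2 := Finset.card_le_two

theorem cand_card_of_ge {a v : ℕ} (h : a ≤ v) : (cand a v).card ≤ 4 := by
  unfold cand
  split_ifs with h1 h2 h3 h4
  all_goals try omega
  · simp
  all_goals
    rw [Finset.union_empty, Finset.card_product]
    exact Nat.mul_le_mul (card_pair_le _ _) (card_pair_le _ _)

theorem cand_card (a v : ℕ) : (cand a v).card ≤ 8 := by
  unfold cand
  split_ifs with h1 h2 h3 h4
  · simp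
  all_goals
    refine (Finset.card_union_le _ _).trans ?_
    rw [Finset.card_product]
    try rw [Finset.card_product]
    have h5 := fun p q => card_pair_le p q
    try rw [Finset.card_empty]
    have h6 : ∀ p q p' q' : ℕ, ({p, q} : Finset ℕ).card * ({p', q'} : Finset ℕ).card ≤ 4 :=
      fun p q p' q' => Nat.mul_le_mul (card_pair_le p q) (card_pair_le p' q')
    linarith [h6 (v - Nat.log 2 v) (v - (Nat.log 2 v + 1)) (v + 1) (v + 2),
      h6 (v - Nat.log 2 v) (v - (Nat.log 2 v + 1)) (v + 1) 1,
      h6 (2 * a - (Nat.log 2 a + 1) + Nat.log 2 v) (2 * a - (Nat.log 2 a + 2) + Nat.log 2 v)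
        (2 * v) (2 * v + 1)]

theorem mem_cand {a x v w : ℕ} (hx : a ≤ x) (hxa : x < 2 * a) (hv : v < 2 * a) (hw : w < 2 * a)
    (h1 : key a x v < key a x w)
    (h2 : ∀ u, u < 2 * a → key a x v < key a x u → key a x w ≤ key a x u) :
    (rank a x v, w) ∈ cand a v := by
  have hx0 : 0 < x := by omega
  by_cases hpath : OnPath x v
  · -- the node is an ancestor
    have hv0 := hpath.1
    rw [key_pos hpath] at h1 h2
    have hwp : OnPath x w := by
      by_contra h
      rw [key_neg h] at h1
      omega
    rw [key_pos hwp] at h1
    have hvw : v < w := by omega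
    have h3 : 2 * v ≤ w := onPath_double hpath hwp hvw
    have h4 : w ≤ 2 * v + 1 := by
      obtain ⟨_, i, hi⟩ := hpath
      cases i with
      | zero =>
        have := onPath_le hwp
        simp at hi
        omega
      | succ i =>
        have h5 : x / 2 ^ i / 2 = v := by
          rw [← hi, pow_succ, Nat.div_div_eq_div_mul]
        have h6 : OnPath x (x / 2 ^ i) := ⟨by omega, i, rfl⟩
        have h7 : x / 2 ^ i < 2 * a := lt_of_le_of_lt (onPath_le h6) hxa
        have h8 := h2 (x / 2 ^ i) h7
        rw [key_pos h6, key_pos hwp] at h8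
        have := h8 (by omega)
        omega
    have hlog : Nat.log 2 x = Nat.log 2 a ∨ Nat.log 2 x = Nat.log 2 a + 1 := by
      have h5 : Nat.log 2 a ≤ Nat.log 2 x := Nat.log_mono_right hx
      have h6 : Nat.log 2 x ≤ Nat.log 2 (2 * a + 1) := Nat.log_mono_right (by omega)
      have h7 : Nat.log 2 (2 * a + 1) = Nat.log 2 a + 1 := by
        rw [log_half (by omega)]
        congr 2
        omega
      omega
    rw [rank_pos hx0 hxa hpath]
    unfold cand
    rw [if_neg (by omega), if_pos (show v < a by omega)]
    apply Finset.mem_union_right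
    rw [Finset.mem_product]
    constructor
    · simp only [Finset.mem_insert, Finset.mem_singleton]
      rcases hlog with h | h
      · left; rw [h]
      · right; rw [h]
    · simp only [Finset.mem_insert, Finset.mem_singleton]
      omega
  · rw [rank_neg hv hpath]
    rw [key_neg hpath] at h1 h2
    by_cases hv0 : v = 0
    · subst hv0
      unfold cand
      rw [if_pos rfl]
      simp only [Finset.mem_product, Finset.mem_insert, Finset.mem_singleton]
      refine ⟨by omega, ?_⟩
      have hw0 : w ≠ 0 := by
        rintro rfl
        rw [key_neg hpath] at h1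
        omega
      by_cases ha : a = 1
      · omega
      · have h23 : ¬ OnPath x 2 ∨ ¬ OnPath x 3 := by
          by_contra h
          push Not at h
          have := onPath_double h.1 h.2 (by omega)
          omega
        have h4 : key a x w ≤ 3 := by
          rcases h23 with h | h
          · have := h2 2 (by omega) (by rw [key_neg h]; omega)
            rw [key_neg h] at this
            omega
          · have := h2 3 (by omega) (by rw [key_neg h]; omega)
            rw [key_neg h] at this
            omega
        by_cases hwp : OnPath x w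
        · rw [key_pos hwp] at h4; omega
        · rw [key_neg hwp] at h4; omega
    · unfold cand
      rw [if_neg hv0]
      apply Finset.mem_union_left
      rw [Finset.mem_product]
      constructor
      · simp only [Finset.mem_insert, Finset.mem_singleton]
        rcases cnt_mem hx0 v (by omega) (by omega) with h | h
        · left; rw [h]
        · right; rw [h]
      · simp only [Finset.mem_insert, Finset.mem_singleton]
        by_cases h3 : v + 1 < 2 * a ∧ ¬ OnPath x (v + 1)
        · left
          have h4 := h2 (v + 1) h3.1 (by rw [key_neg h3.2]; omega)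
          rw [key_neg h3.2] at h4
          by_cases hwp : OnPath x w
          · rw [key_pos hwp] at h4; omega
          · rw [key_neg hwp] at h4 h1; omega
        · right
          by_cases h4 : v + 2 < 2 * a
          · rw [if_pos h4]
            have h5 : OnPath x (v + 1) := by
              by_contra h
              exact h3 ⟨by omega, h⟩
            have h6 : ¬ OnPath x (v + 2) := by
              intro h
              have := onPath_double h5 h (by omega)
              omega
            have h7 := h2 (v + 2) h4 (by rw [key_neg h6]; omega)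
            rw [key_neg h6] at h7
            by_cases hwp : OnPath x w
            · rw [key_pos hwp] at h7; omega
            · rw [key_neg hwp] at h7 h1
              have : w ≠ v + 1 := by
                rintro rfl
                exact hwp h5
              omega
          · rw [if_neg h4]
            have hwp : OnPath x w := by
              by_contra hwp
              rw [key_neg hwp] at h1
              have : w = v + 1 := by omega
              subst this
              exact h3 ⟨hw, hwp⟩
            have h8 := h2 1 (by omega) (by rw [key_pos (onPath_one hx0)]; omega)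
            rw [key_pos (onPath_one hx0), key_pos hwp] at h8
            have := hwp.1
            omega

end Key

/-! ### The protocol for an even number of parties -/

section Even

/-- The itinerary of the contract with leaf `x`: the nodes sorted by key. -/
noncomputable def basePerm (a x : ℕ) : Equiv.Perm (Fin (2 * a)) :=
  Tuple.sort fun v : Fin (2 * a) => key a x v

theorem basePerm_strictMono (a x : ℕ) :
    StrictMono fun d : Fin (2 * a) => key a x (basePerm a x d) := by
  have h : Monotone fun d : Fin (2 * a) => key a x (basePerm a x d) :=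
    Tuple.monotone_sort fun v : Fin (2 * a) => key a x v
  refine h.strictMono_of_injective ?_
  intro d e hde
  have := key_inj (basePerm a x d).2 (basePerm a x e).2 hde
  exact (basePerm a x).injective (Fin.ext this)

theorem rank_basePerm (a x : ℕ) (d : Fin (2 * a)) : rank a x (basePerm a x d) = d := by
  classical
  unfold rank
  have : (Finset.range (2 * a)).filter (fun u => key a x u < key a x (basePerm a x d)) =
      (Finset.Iio d).image fun e => ((basePerm a x e : Fin (2 * a)) : ℕ) := by
    ext u
    simp only [Finset.mem_filter, Finset.mem_range, Finset.mem_image, Finset.mem_Iio]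
    constructor
    · rintro ⟨h1, h2⟩
      refine ⟨(basePerm a x).symm ⟨u, h1⟩, ?_, by simp⟩
      by_contra h3
      have h4 := (basePerm_strictMono a x).monotone (not_lt.1 h3)
      simp only [Equiv.apply_symm_apply] at h4
      omega
    · rintro ⟨e, h1, rfl⟩
      exact ⟨(basePerm a x e).2, basePerm_strictMono a x h1⟩
  rw [this, Finset.card_image_of_injective, Fin.card_Iio]
  intro e e' h
  exact (basePerm a x).injective (Fin.ext h)

theorem basePerm_last {a x : ℕ} (hx : 0 < x) (hxa : x < 2 * a) (d : Fin (2 * a))
    (hd : (d : ℕ) = 2 * a - 1) : basePerm a x d = ⟨x, hxa⟩ := by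
  have h1 : ∀ u : Fin (2 * a), key a x u ≤ key a x x := by
    intro u
    rw [key_pos (onPath_self hx)]
    by_cases h : OnPath x u
    · rw [key_pos h]; have := onPath_le h; omega
    · rw [key_neg h]; have := u.2; omega
  have h2 : (basePerm a x).symm ⟨x, hxa⟩ ≤ d := by
    show ((basePerm a x).symm ⟨x, hxa⟩ : ℕ) ≤ d
    have := ((basePerm a x).symm ⟨x, hxa⟩).2
    omega
  have h3 := (basePerm_strictMono a x).monotone h2
  simp only [Equiv.apply_symm_apply] at h3
  have h4 := h1 (basePerm a x d)
  exact Fin.ext (key_inj (basePerm a x d).2 hxa (le_antisymm h4 h3))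

theorem basePerm_zero {a x : ℕ} (ha : 0 < a) : basePerm a x ⟨0, by omega⟩ = ⟨0, by omega⟩ := by
  have h1 := rank_basePerm a x ⟨0, by omega⟩
  by_contra h
  have h2 : ((basePerm a x ⟨0, by omega⟩ : Fin (2 * a)) : ℕ) ≠ 0 := by
    intro h3; exact h (Fin.ext h3)
  unfold rank at h1
  simp only [Finset.card_eq_zero, Finset.filter_eq_empty_iff] at h1
  refine h1 (x := 0) (by simp; omega) ?_
  rw [key_neg (fun h => by have := h.1; omega)]
  by_cases h3 : OnPath x (basePerm a x ⟨0, by omega⟩)
  · rw [key_pos h3]; omega
  · rw [key_neg h3]; omega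

theorem basePerm_mem_cand {a x : ℕ} (hx : a ≤ x) (hxa : x < 2 * a) (d : Fin (2 * a))
    (hd : (d : ℕ) + 1 < 2 * a) :
    ((d : ℕ), ((basePerm a x ⟨(d : ℕ) + 1, hd⟩ : Fin (2 * a)) : ℕ)) ∈ cand a (basePerm a x d) := by
  have h := mem_cand hx hxa (basePerm a x d).2 (basePerm a x ⟨(d : ℕ) + 1, hd⟩).2
    (basePerm_strictMono a x (show d < ⟨(d : ℕ) + 1, hd⟩ from Nat.lt_succ_self _)) ?_
  · rwa [rank_basePerm] at h
  · intro u hu hlt
    have h1 : u = ((basePerm a x ((basePerm a x).symm ⟨u, hu⟩) : Fin (2 * a)) : ℕ) := by simp
    rw [h1] at hlt ⊢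
    apply (basePerm_strictMono a x).monotone
    have h2 : d < (basePerm a x).symm ⟨u, hu⟩ := by
      by_contra h3
      have := (basePerm_strictMono a x).monotone (not_lt.1 h3)
      omega
    show (d : ℕ) + 1 ≤ _
    exact h2

/-- Exchange of the two halves. -/
def rotFun (a : ℕ) (v : Fin (2 * a)) : Fin (2 * a) :=
  if h : (v : ℕ) < a then ⟨v + a, by omega⟩ else ⟨v - a, by omega⟩

theorem rotFun_invol (a : ℕ) : Function.Involutive (rotFun a) := by
  intro v
  apply Fin.ext
  unfold rotFun
  by_cases h : (v : ℕ) < a
  · simp only [h, dif_pos]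
    rw [dif_neg (by simp)]
    simp
  · simp only [h, dif_neg, not_false_eq_true]
    have h2 : (v : ℕ) - a < a := by have := v.2; omega
    simp only [h2, dif_pos]
    omega

def rot (a : ℕ) : Equiv.Perm (Fin (2 * a)) := (rotFun_invol a).toPerm

theorem rot_rot (a : ℕ) (v : Fin (2 * a)) : rot a (rot a v) = v := rotFun_invol a v

theorem rot_val_lt {a : ℕ} {v : Fin (2 * a)} (h : (v : ℕ) < a) : ((rot a v : Fin (2 * a)) : ℕ) = v + a := by
  show (rotFun a v : ℕ) = _
  simp [rotFun, h]

theorem rot_val_ge {a : ℕ} {v : Fin (2 * a)} (h : a ≤ (v : ℕ)) : ((rot a v : Fin (2 * a)) : ℕ) = v - a := by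
  show (rotFun a v : ℕ) = _
  simp [rotFun, not_lt.2 h]

noncomputable def evenHolder (a : ℕ) (n : Fin (2 * a)) : Equiv.Perm (Fin (2 * a)) :=
  if (n : ℕ) < a then (basePerm a (n + a)).trans (rot a) else basePerm a n

noncomputable def evenProtocol (a : ℕ) : FastProtocol (2 * a) where
  holder := evenHolder a
  last_day := by
    intro n d hd
    unfold evenHolder
    have hn := n.2
    split_ifs with h
    · rw [Equiv.trans_apply, basePerm_last (by omega) (by omega) d hd]
      apply Fin.ext
      rw [rot_val_ge (by simp)]
      simp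
    · exact basePerm_last (by omega) hn d hd

theorem evenHolder_zero {a : ℕ} (ha : 0 < a) (n : Fin (2 * a)) :
    evenHolder a n ⟨0, by omega⟩ = ⟨0, by omega⟩ ∨ evenHolder a n ⟨0, by omega⟩ = ⟨a, by omega⟩ := by
  unfold evenHolder
  split_ifs with h
  · right
    rw [Equiv.trans_apply, basePerm_zero ha]
    apply Fin.ext
    rw [rot_val_lt (by simpa using ha)]
    simp
  · left
    exact basePerm_zero ha

theorem even_cost (a : ℕ) (i : Fin (2 * a)) : cost (evenProtocol a) i ≤ 12 := by
  classical
  let S1 : Finset (Fin (2 * a) × Fin (2 * a)) :=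
    Finset.univ.filter fun x => ((x.1 : ℕ), (x.2 : ℕ)) ∈ cand a i
  let S2 : Finset (Fin (2 * a) × Fin (2 * a)) :=
    Finset.univ.filter fun x => ((x.1 : ℕ), ((rot a x.2 : Fin (2 * a)) : ℕ)) ∈
      cand a ((rot a i : Fin (2 * a)) : ℕ)
  have h1 : S1.card ≤ (cand a i).card := by
    refine Finset.card_le_card_of_injOn (fun x => ((x.1 : ℕ), (x.2 : ℕ))) ?_ ?_
    · intro x hx
      exact (Finset.mem_filter.1 hx).2
    · intro x _ y _ h
      simp only [Prod.mk.injEq] at h
      exact Prod.ext (Fin.ext h.1) (Fin.ext h.2)
  have h2 : S2.card ≤ (cand a ((rot a i : Fin (2 * a)) : ℕ)).card := by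
    refine Finset.card_le_card_of_injOn
      (fun x => ((x.1 : ℕ), ((rot a x.2 : Fin (2 * a)) : ℕ))) ?_ ?_
    · intro x hx
      exact (Finset.mem_filter.1 hx).2
    · intro x _ y _ h
      simp only [Prod.mk.injEq] at h
      exact Prod.ext (Fin.ext h.1) ((rot a).injective (Fin.ext h.2))
  have h3 : cost (evenProtocol a) i ≤ (S1 ∪ S2).card := by
    unfold cost
    apply Finset.card_le_card
    rintro ⟨d, j⟩ hx
    simp only [Finset.mem_filter, Finset.mem_univ, true_and] at hx
    obtain ⟨n, hd, hi, hj⟩ := hx
    have hn := n.2
    change evenHolder a n d = i at hi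
    change evenHolder a n ⟨(d : ℕ) + 1, hd⟩ = j at hj
    unfold evenHolder at hi hj
    by_cases h : (n : ℕ) < a
    · rw [if_pos h] at hi hj
      apply Finset.mem_union_right
      simp only [S2, Finset.mem_filter, Finset.mem_univ, true_and]
      rw [Equiv.trans_apply] at hi hj
      rw [← hi, ← hj, rot_rot, rot_rot]
      exact basePerm_mem_cand (by omega) (by omega) d hd
    · rw [if_neg h] at hi hj
      apply Finset.mem_union_left
      simp only [S1, Finset.mem_filter, Finset.mem_univ, true_and]
      rw [← hi, ← hj]
      exact basePerm_mem_cand (by omega) hn d hd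
  have h4 : (cand a i).card + (cand a ((rot a i : Fin (2 * a)) : ℕ)).card ≤ 12 := by
    by_cases h : (i : ℕ) < a
    · have h5 := cand_card a i
      have h6 := cand_card_of_ge (a := a) (v := ((rot a i : Fin (2 * a)) : ℕ))
        (by rw [rot_val_lt h]; omega)
      omega
    · have h5 := cand_card a ((rot a i : Fin (2 * a)) : ℕ)
      have h6 := cand_card_of_ge (a := a) (v := (i : ℕ)) (by omega)
      omega
  have h5 := Finset.card_union_le S1 S2
  omega

end Even

/-! ### One more party -/

section Succ

variable {N : ℕ}

noncomputable def succPerm (σ : Equiv.Perm (Fin N)) : Equiv.Perm (Fin (N + 1)) :=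
  Equiv.ofBijective (Fin.cons (Fin.last N) fun d => (σ d).castSucc : Fin (N + 1) → Fin (N + 1))
    (Finite.injective_iff_bijective.1 (Fin.cons_injective_iff.2
      ⟨by rintro ⟨d, hd⟩; exact absurd hd (Fin.castSucc_lt_last _).ne,
        fun d e h => σ.injective (Fin.castSucc_injective _ h)⟩))

theorem succPerm_zero (σ : Equiv.Perm (Fin N)) : succPerm σ 0 = Fin.last N := rfl

theorem succPerm_succ (σ : Equiv.Perm (Fin N)) (d : Fin N) :
    succPerm σ d.succ = (σ d).castSucc := rfl

noncomputable def succHolder (P : FastProtocol N) (n : Fin (N + 1)) : Equiv.Perm (Fin (N + 1)) :=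
  Fin.lastCases (motive := fun _ => Equiv.Perm (Fin (N + 1))) (Equiv.refl _)
    (fun n => succPerm (P.holder n)) n

theorem succHolder_last (P : FastProtocol N) : succHolder P (Fin.last N) = Equiv.refl _ := by
  simp [succHolder]

theorem succHolder_castSucc (P : FastProtocol N) (n : Fin N) :
    succHolder P n.castSucc = succPerm (P.holder n) := by
  simp [succHolder]

noncomputable def succProtocol (P : FastProtocol N) : FastProtocol (N + 1) where
  holder := succHolder P
  last_day := by
    intro n d hd
    refine Fin.lastCases ?_ (fun n => ?_) n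
    · rw [succHolder_last]
      apply Fin.ext
      simpa using hd
    · rw [succHolder_castSucc]
      have hN : 0 < N := Fin.pos n
      have : d = (⟨N - 1, by omega⟩ : Fin N).succ := by
        apply Fin.ext
        simp
        omega
      rw [this, succPerm_succ, P.last_day n ⟨N - 1, by omega⟩ rfl]

theorem succ_cost_last (hN : 0 < N) (P : FastProtocol N) (s t : Fin N)
    (h : ∀ n, P.holder n ⟨0, hN⟩ = s ∨ P.holder n ⟨0, hN⟩ = t) :
    cost (succProtocol P) (Fin.last N) ≤ 2 := by
  classical
  have : cost (succProtocol P) (Fin.last N) ≤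
      ({(0, s.castSucc), (0, t.castSucc)} : Finset (Fin (N + 1) × Fin (N + 1))).card := by
    unfold cost
    apply Finset.card_le_card
    rintro ⟨d, j⟩ hx
    simp only [Finset.mem_filter, Finset.mem_univ, true_and] at hx
    obtain ⟨n, hd, hi, hj⟩ := hx
    change succHolder P n d = Fin.last N at hi
    change succHolder P n ⟨(d : ℕ) + 1, hd⟩ = j at hj
    revert hi hj
    refine Fin.lastCases ?_ (fun n => ?_) n
    · intro hi hj
      rw [succHolder_last] at hi
      have := congrArg Fin.val hi
      simp at this
      omega
    · intro hi hj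
      rw [succHolder_castSucc] at hi hj
      rw [← succPerm_zero (P.holder n)] at hi
      have hd0 : d = 0 := (succPerm (P.holder n)).injective hi
      subst hd0
      have h1 : (⟨((0 : Fin (N + 1)) : ℕ) + 1, hd⟩ : Fin (N + 1)) = (⟨0, hN⟩ : Fin N).succ := by
        apply Fin.ext; simp
      rw [h1, succPerm_succ] at hj
      rw [← hj]
      rcases h n with h2 | h2
      · rw [h2]; simp
      · rw [h2]; simp
  exact this.trans Finset.card_le_two

theorem succ_cost_castSucc (P : FastProtocol N) (i : Fin N) :
    cost (succProtocol P) i.castSucc ≤ cost P i + 1 := by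
  classical
  unfold cost
  set S := (Finset.univ.filter fun x : Fin N × Fin N =>
    ∃ (n : Fin N) (h : (x.1 : ℕ) + 1 < N),
      P.holder n x.1 = i ∧ P.holder n ⟨(x.1 : ℕ) + 1, h⟩ = x.2) with hS
  have : (Finset.univ.filter fun x : Fin (N + 1) × Fin (N + 1) =>
      ∃ (n : Fin (N + 1)) (h : (x.1 : ℕ) + 1 < N + 1),
        (succProtocol P).holder n x.1 = i.castSucc ∧
          (succProtocol P).holder n ⟨(x.1 : ℕ) + 1, h⟩ = x.2) ⊆
      insert (i.castSucc, i.succ)
        (S.image fun x : Fin N × Fin N => (x.1.succ, x.2.castSucc)) := by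
    rintro ⟨d, j⟩ hx
    simp only [Finset.mem_filter, Finset.mem_univ, true_and] at hx
    obtain ⟨n, hd, hi, hj⟩ := hx
    change succHolder P n d = i.castSucc at hi
    change succHolder P n ⟨(d : ℕ) + 1, hd⟩ = j at hj
    revert hi hj
    refine Fin.lastCases ?_ (fun n => ?_) n
    · intro hi hj
      rw [succHolder_last] at hi hj
      simp only [Equiv.refl_apply] at hi hj
      rw [Finset.mem_insert]
      left
      subst hi
      rw [← hj]
      rfl
    · intro hi hj
      rw [succHolder_castSucc] at hi hj
      rw [Finset.mem_insert]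
      right
      revert hi hj hd
      refine Fin.cases ?_ (fun d => ?_) d
      · intro hd hi _
        rw [succPerm_zero] at hi
        exact absurd hi.symm (Fin.castSucc_lt_last _).ne
      · intro hd hi hj
        rw [succPerm_succ] at hi
        have hi' : P.holder n d = i := Fin.castSucc_injective _ hi
        have hd' : (d : ℕ) + 1 < N := by simpa using hd
        have h1 : (⟨((d.succ : Fin (N + 1)) : ℕ) + 1, hd⟩ : Fin (N + 1)) =
            (⟨(d : ℕ) + 1, hd'⟩ : Fin N).succ := by
          apply Fin.ext; simp
        rw [h1, succPerm_succ] at hj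
        rw [Finset.mem_image]
        refine ⟨(d, P.holder n ⟨(d : ℕ) + 1, hd'⟩), ?_, ?_⟩
        · rw [hS]
          simp only [Finset.mem_filter, Finset.mem_univ, true_and]
          exact ⟨n, hd', hi', rfl⟩
        · rw [hj]
  refine (Finset.card_le_card this).trans ((Finset.card_insert_le _ _).trans ?_)
  have := Finset.card_image_le (s := S) (f := fun x : Fin N × Fin N => (x.1.succ, x.2.castSucc))
  omega

end Succ

theorem main_bound (N : ℕ) (hN : 2 ≤ N) : ∃ P : FastProtocol N, ∀ i, cost P i ≤ 13 := by
  rcases Nat.even_or_odd N with ⟨a, ha⟩ | ⟨a, ha⟩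
  · have : N = 2 * a := by omega
    subst this
    exact ⟨evenProtocol a, fun i => (even_cost a i).trans (by norm_num)⟩
  · subst ha
    refine ⟨succProtocol (evenProtocol a), fun i => ?_⟩
    refine Fin.lastCases ?_ (fun i => ?_) i
    · exact (succ_cost_last (by omega) (evenProtocol a) _ _
        (evenHolder_zero (by omega))).trans (by norm_num)
    · have h1 := succ_cost_castSucc (evenProtocol a) i
      have h2 := even_cost a i
      omega

end Pool.Agent.Lib.MP_e6c168_lc
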